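import Pool.Agent.H31.DP.Targets

/-!
Board dpt_modules, module GV: the generalised von Neumann inequality on a finite group.
-/

set_option autoImplicit false

open Finset

namespace Pool.Agent.H90.DP

open Pool.Agent.H31.DP

/-- double sums over `A` as sums over the differences -/
theorem sum_diff (X : ℕ) (A : Finset ℤ) (hA : ∀ p ∈ A, ∀ q ∈ A, |p - q| ≤ (X : ℤ))
    (K : ℤ → ℤ → ℂ) : ∑ p ∈ A, ∑ q ∈ A, K p q =
      ∑ t ∈ Finset.Icc (-(X : ℤ)) X, ∑ p ∈ A.filter (fun p => p + t ∈ A), K p (p + t) := by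
  simp only [Finset.sum_filter]
  conv_rhs => rw [Finset.sum_comm]
  refine Finset.sum_congr rfl (fun p hp => ?_)
  rw [← Finset.sum_filter]
  refine (Finset.sum_bij (fun t _ => p + t) ?_ ?_ ?_ ?_).symm
  · intro t ht
    exact (Finset.mem_filter.1 ht).2
  · intro t _ t' _ h
    exact add_left_cancel h
  · intro q hq
    refine ⟨q - p, ?_, by ring⟩
    rw [Finset.mem_filter, Finset.mem_Icc]
    have h1 := abs_le.1 (hA q hq p hp)
    refine ⟨⟨h1.1, h1.2⟩, ?_⟩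
    have h2 : p + (q - p) = q := by ring
    rw [h2]
    exact hq
  · intro t _
    rfl

theorem prod_norm_le {m : ℕ} (f : Fin m → ℂ) (hf : ∀ i, ‖f i‖ ≤ 1) : ‖∏ i, f i‖ ≤ 1 := by
  rw [norm_prod]
  exact Finset.prod_le_one (fun i _ => norm_nonneg _) (fun i _ => hf i)

/-- the second moment of a sum of functions -/
theorem second (Z : Type) [AddCommGroup Z] [Fintype Z] (X : ℕ) (A : Finset ℤ)
    (hA : ∀ p ∈ A, ∀ q ∈ A, |p - q| ≤ (X : ℤ)) (c : ℤ → ℂ) (F : ℤ → Z → ℂ) :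
    ∑ y : Z, (‖∑ p ∈ A, c p * F p y‖ : ℝ) ^ 2 ≤
      ∑ t ∈ Finset.Icc (-(X : ℤ)) X, ‖∑ p ∈ A.filter (fun p => p + t ∈ A),
        c p * (starRingEnd ℂ) (c (p + t)) *
          ∑ y : Z, F p y * (starRingEnd ℂ) (F (p + t) y)‖ := by
  have h1 : ((∑ y : Z, (‖∑ p ∈ A, c p * F p y‖ : ℝ) ^ 2 : ℝ) : ℂ) =
      ∑ t ∈ Finset.Icc (-(X : ℤ)) X, ∑ p ∈ A.filter (fun p => p + t ∈ A),
        c p * (starRingEnd ℂ) (c (p + t)) *
          ∑ y : Z, F p y * (starRingEnd ℂ) (F (p + t) y) := by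
    rw [← sum_diff X A hA (fun p q => c p * (starRingEnd ℂ) (c q) *
      ∑ y : Z, F p y * (starRingEnd ℂ) (F q y))]
    push_cast
    have h2 : ∀ y : Z, ((‖∑ p ∈ A, c p * F p y‖ : ℝ) : ℂ) ^ 2 =
        ∑ p ∈ A, ∑ q ∈ A, c p * (starRingEnd ℂ) (c q) * (F p y * (starRingEnd ℂ) (F q y)) := by
      intro y
      rw [← Complex.mul_conj', map_sum, Finset.sum_mul_sum]
      refine Finset.sum_congr rfl (fun p _ => Finset.sum_congr rfl (fun q _ => ?_))
      rw [map_mul]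
      ring
    simp only [h2]
    rw [Finset.sum_comm]
    refine Finset.sum_congr rfl (fun p _ => ?_)
    rw [Finset.sum_comm]
    refine Finset.sum_congr rfl (fun q _ => ?_)
    rw [Finset.mul_sum]
  have h3 : 0 ≤ ∑ y : Z, (‖∑ p ∈ A, c p * F p y‖ : ℝ) ^ 2 :=
    Finset.sum_nonneg (fun y _ => by positivity)
  calc ∑ y : Z, (‖∑ p ∈ A, c p * F p y‖ : ℝ) ^ 2
      = ‖((∑ y : Z, (‖∑ p ∈ A, c p * F p y‖ : ℝ) ^ 2 : ℝ) : ℂ)‖ := by
        rw [Complex.norm_real, Real.norm_eq_abs, abs_of_nonneg h3]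
    _ ≤ _ := by
        rw [h1]
        exact norm_sum_le _ _

/-- Cauchy-Schwarz -/
theorem cs (Z : Type) [AddCommGroup Z] [Fintype Z] (L : ℕ) (J : Finset Z) (G H : Z → ℂ)
    (hJ : J.card ≤ L) (hG : ∀ z, ‖G z‖ ≤ 1) (h0 : ∀ z, z ∉ J → G z = 0) :
    ‖∑ y : Z, G y * H y‖ ^ 2 ≤ L * ∑ y : Z, ‖H y‖ ^ 2 := by
  classical
  have h1 : ∑ y : Z, G y * H y = ∑ y ∈ J, G y * H y := by
    symm
    apply Finset.sum_subset (Finset.subset_univ _)
    intro y _ hy
    rw [h0 y hy, zero_mul]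
  have h2 : ‖∑ y ∈ J, G y * H y‖ ≤ ∑ y ∈ J, ‖H y‖ := by
    refine (norm_sum_le _ _).trans (Finset.sum_le_sum (fun y _ => ?_))
    rw [norm_mul]
    calc ‖G y‖ * ‖H y‖ ≤ 1 * ‖H y‖ := mul_le_mul_of_nonneg_right (hG y) (norm_nonneg _)
      _ = ‖H y‖ := one_mul _
  have h3 : (∑ y ∈ J, ‖H y‖) ^ 2 ≤ J.card * ∑ y ∈ J, ‖H y‖ ^ 2 := sq_sum_le_card_mul_sum_sq
  have h4 : ∑ y ∈ J, ‖H y‖ ^ 2 ≤ ∑ y : Z, ‖H y‖ ^ 2 :=
    Finset.sum_le_sum_of_subset_of_nonneg (Finset.subset_univ _) (fun y _ _ => by positivity)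
  rw [h1]
  calc ‖∑ y ∈ J, G y * H y‖ ^ 2 ≤ (∑ y ∈ J, ‖H y‖) ^ 2 :=
        pow_le_pow_left₀ (norm_nonneg _) h2 2
    _ ≤ J.card * ∑ y ∈ J, ‖H y‖ ^ 2 := h3
    _ ≤ L * ∑ y : Z, ‖H y‖ ^ 2 := by
        have h5 : (J.card : ℝ) ≤ L := by exact_mod_cast hJ
        exact mul_le_mul h5 h4 (Finset.sum_nonneg (fun y _ => by positivity)) (Nat.cast_nonneg _)

theorem pf_GV : StatementGV := by
  intro Z _ _ n L X
  induction n with
  | zero =>
    intro J G h A c hJ hG h0 hA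
    have h1 : ∑ p ∈ A, c p * ∑ y : Z, ∏ i, G i (y + p • h i) =
        (∑ p ∈ A, c p) * ∑ y : Z, G 0 y := by
      rw [Finset.sum_mul]
      refine Finset.sum_congr rfl (fun p _ => ?_)
      congr 1
      have h2 : ∀ y : Z, ∏ i, G i (y + p • h i) = G 0 (y + p • h 0) := fun y =>
        Fin.prod_univ_one (fun i => G i (y + p • h i))
      simp only [h2]
      exact Equiv.sum_comp (Equiv.addRight (p • h 0)) (fun y => G 0 y)
    have h2 : ‖∑ y : Z, G 0 y‖ ≤ L := by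
      classical
      have h3 : ∑ y : Z, G 0 y = ∑ y ∈ J, G 0 y := by
        symm
        apply Finset.sum_subset (Finset.subset_univ _)
        intro y _ hy
        exact h0 0 y hy
      rw [h3]
      calc ‖∑ y ∈ J, G 0 y‖ ≤ ∑ y ∈ J, ‖G 0 y‖ := norm_sum_le _ _
        _ ≤ ∑ y ∈ J, (1 : ℝ) := Finset.sum_le_sum (fun y _ => hG 0 y)
        _ = J.card := by simp
        _ ≤ L := by exact_mod_cast hJ
    have h3 : Uc X (0 + 1) A c = ((‖∑ p ∈ A, c p‖ ^ 2 : ℝ) : ℂ) := by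
      unfold Uc
      unfold Uc
      rw [← sum_diff X A hA (fun p q => c p * (starRingEnd ℂ) (c q))]
      push_cast
      rw [← Complex.mul_conj', map_sum, Finset.sum_mul_sum]
    rw [h1, h3, Complex.ofReal_re, norm_mul]
    norm_num
    rw [mul_pow, mul_comm]
    exact mul_le_mul_of_nonneg_right (pow_le_pow_left₀ (norm_nonneg _) h2 2) (by positivity)
  | succ n ih =>
    intro J G h A c hJ hG h0 hA
    -- the functions of the next level
    set g : Fin (n + 1) → Z := fun i => h i.succ - h 0 with hg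
    set F : ℤ → Z → ℂ := fun p y => ∏ i : Fin (n + 1), G i.succ (y + p • g i) with hF
    have h1 : ∑ p ∈ A, c p * ∑ y : Z, ∏ i, G i (y + p • h i) =
        ∑ y : Z, G 0 y * ∑ p ∈ A, c p * F p y := by
      have h2 : ∀ p : ℤ, ∑ y : Z, ∏ i, G i (y + p • h i) = ∑ y : Z, G 0 y * F p y := by
        intro p
        rw [← Equiv.sum_comp (Equiv.subRight (p • h 0)) (fun y => ∏ i, G i (y + p • h i))]
        refine Finset.sum_congr rfl (fun y _ => ?_)
        rw [Fin.prod_univ_succ]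
        simp only [Equiv.subRight_apply, sub_add_cancel, hF, hg]
        congr 1
        refine Finset.prod_congr rfl (fun i _ => ?_)
        congr 1
        rw [smul_sub]
        abel
      simp only [h2, Finset.mul_sum]
      rw [Finset.sum_comm]
      refine Finset.sum_congr rfl (fun y _ => Finset.sum_congr rfl (fun p _ => ?_))
      ring
    have h2 := cs Z L J (G 0) (fun y => ∑ p ∈ A, c p * F p y) hJ (hG 0) (h0 0)
    have h3 := second Z X A hA c F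
    -- the sums of the next level
    set E : ℤ → ℂ := fun t => ∑ p ∈ A.filter (fun p => p + t ∈ A),
      c p * (starRingEnd ℂ) (c (p + t)) * ∑ y : Z, F p y * (starRingEnd ℂ) (F (p + t) y) with hE
    have h4 : ‖∑ p ∈ A, c p * ∑ y : Z, ∏ i, G i (y + p • h i)‖ ^ 2 ≤
        L * ∑ t ∈ Finset.Icc (-(X : ℤ)) X, ‖E t‖ := by
      rw [h1]
      exact h2.trans (mul_le_mul_of_nonneg_left h3 (Nat.cast_nonneg _))
    have h5 : ∀ t : ℤ, ‖E t‖ ^ (2 ^ (n + 1)) ≤
        (L : ℝ) ^ (2 ^ (n + 1)) * (2 * X + 1) ^ (2 ^ (n + 1) - (n + 2)) *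
          (Uc X (n + 1) (A.filter (fun p => p + t ∈ A))
            (fun p => c p * (starRingEnd ℂ) (c (p + t)))).re := by
      intro t
      have h6 := ih J (fun i z => G i.succ z * (starRingEnd ℂ) (G i.succ (z + t • g i))) g
        (A.filter (fun p => p + t ∈ A)) (fun p => c p * (starRingEnd ℂ) (c (p + t))) hJ
        (fun i z => by
          rw [norm_mul, RCLike.norm_conj]
          exact mul_le_one₀ (hG _ _) (norm_nonneg _) (hG _ _))
        (fun i z hz => by rw [h0 _ z hz, zero_mul])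
        (fun p hp q hq => hA p (Finset.mem_filter.1 hp).1 q (Finset.mem_filter.1 hq).1)
      have h7 : E t = ∑ p ∈ A.filter (fun p => p + t ∈ A),
          c p * (starRingEnd ℂ) (c (p + t)) * ∑ y : Z, ∏ i,
            (G i.succ (y + p • g i) * (starRingEnd ℂ) (G i.succ (y + p • g i + t • g i))) := by
        rw [hE]
        refine Finset.sum_congr rfl (fun p _ => ?_)
        congr 1
        refine Finset.sum_congr rfl (fun y _ => ?_)
        rw [hF]
        simp only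
        rw [map_prod, ← Finset.prod_mul_distrib]
        refine Finset.prod_congr rfl (fun i _ => ?_)
        rw [add_smul, add_assoc]
      rw [h7]
      exact h6
    have h6 : (∑ t ∈ Finset.Icc (-(X : ℤ)) X, ‖E t‖) ^ (2 ^ (n + 1)) ≤
        (2 * X + 1 : ℝ) ^ (2 ^ (n + 1) - 1) *
          ∑ t ∈ Finset.Icc (-(X : ℤ)) X, ‖E t‖ ^ (2 ^ (n + 1)) := by
      have h7 := pow_sum_div_card_le_sum_pow (s := Finset.Icc (-(X : ℤ)) X) (f := fun t => ‖E t‖)
        (fun t _ => norm_nonneg _) (2 ^ (n + 1) - 1)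
      have h8 : 2 ^ (n + 1) - 1 + 1 = 2 ^ (n + 1) := Nat.sub_add_cancel Nat.one_le_two_pow
      have h9 : ((Finset.Icc (-(X : ℤ)) X).card : ℝ) = 2 * X + 1 := by
        rw [Int.card_Icc]
        have h10 : (X : ℤ) + 1 - -(X : ℤ) = ((2 * X + 1 : ℕ) : ℤ) := by push_cast; ring
        rw [h10, Int.toNat_natCast]
        push_cast
        ring
      rw [h8, h9, div_le_iff₀ (by positivity)] at h7
      rw [mul_comm]
      exact h7
    have h8 : (Uc X (n + 1 + 1) A c).re = ∑ t ∈ Finset.Icc (-(X : ℤ)) X,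
        (Uc X (n + 1) (A.filter (fun p => p + t ∈ A))
            (fun p => c p * (starRingEnd ℂ) (c (p + t)))).re := by
      rw [Uc, Complex.re_sum]
    have hpow : n + 2 ≤ 2 ^ (n + 1) := by
      clear * -
      induction n with
      | zero => norm_num
      | succ n ih => rw [pow_succ]; omega
    have hN : (0 : ℝ) ≤ 2 * X + 1 := by positivity
    have hL : (0 : ℝ) ≤ L := Nat.cast_nonneg _
    have e1 : 2 ^ (n + 1 + 1) = 2 * 2 ^ (n + 1) := by rw [pow_succ]; ring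
    have e2 : 2 ^ (n + 1 + 1) - (n + 1 + 2) = (2 ^ (n + 1) - 1) + (2 ^ (n + 1) - (n + 2)) := by
      rw [e1]; omega
    calc ‖∑ p ∈ A, c p * ∑ y : Z, ∏ i, G i (y + p • h i)‖ ^ 2 ^ (n + 1 + 1)
        = (‖∑ p ∈ A, c p * ∑ y : Z, ∏ i, G i (y + p • h i)‖ ^ 2) ^ 2 ^ (n + 1) := by
          rw [← pow_mul, e1]
      _ ≤ (L * ∑ t ∈ Finset.Icc (-(X : ℤ)) X, ‖E t‖) ^ 2 ^ (n + 1) :=
          pow_le_pow_left₀ (by positivity) h4 _
      _ = (L : ℝ) ^ 2 ^ (n + 1) * (∑ t ∈ Finset.Icc (-(X : ℤ)) X, ‖E t‖) ^ 2 ^ (n + 1) :=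
          mul_pow _ _ _
      _ ≤ (L : ℝ) ^ 2 ^ (n + 1) * ((2 * X + 1 : ℝ) ^ (2 ^ (n + 1) - 1) *
          ∑ t ∈ Finset.Icc (-(X : ℤ)) X, ‖E t‖ ^ (2 ^ (n + 1))) :=
          mul_le_mul_of_nonneg_left h6 (by positivity)
      _ ≤ (L : ℝ) ^ 2 ^ (n + 1) * ((2 * X + 1 : ℝ) ^ (2 ^ (n + 1) - 1) *
          ∑ t ∈ Finset.Icc (-(X : ℤ)) X, ((L : ℝ) ^ (2 ^ (n + 1)) *
            (2 * X + 1) ^ (2 ^ (n + 1) - (n + 2)) *
            (Uc X (n + 1) (A.filter (fun p => p + t ∈ A))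
              (fun p => c p * (starRingEnd ℂ) (c (p + t)))).re)) :=
          mul_le_mul_of_nonneg_left (mul_le_mul_of_nonneg_left
            (Finset.sum_le_sum (fun t _ => h5 t)) (by positivity)) (by positivity)
      _ = (L : ℝ) ^ 2 ^ (n + 1 + 1) * (2 * X + 1) ^ (2 ^ (n + 1 + 1) - (n + 1 + 2)) *
          (Uc X (n + 1 + 1) A c).re := by
          rw [h8, ← Finset.mul_sum, e2, e1, two_mul (2 ^ (n + 1)), pow_add, pow_add]
          ring

end Pool.Agent.H90.DP
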